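import Pool.Agent.Lib.MP_9cc147_pr.Cx.S2

/-! Module Pi (polymer identity at scale 0): definitions and statements. -/

open scoped Classical
open Finset MeasureTheory ProbabilityTheory

noncomputable section
namespace Pool.Agent.Lib.MP_9cc147_pr.Cx.Pi

/-- the shifted field -/
def Xi (n : ℕ) (Θ : Fld) (ω : Om) (ρ : P → ℝ) : Fld :=
  fun p => Θ p + zw n ω p + if p ∈ inn n then Complex.I * ρ p / 16 else 0
def ph (o : Mod) (w : Gp o.R) (y : ℂ) : ℂ :=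
  (Real.sqrt (o.xw w) : ℝ) * Complex.exp (-(if isG w then o.η / 4 else 0 : ℝ) * y ^ 2)
def ps (o : Mod) (a : ℝ) (y : ℂ) : ℂ :=
  Complex.exp (-(o.η / 4 : ℝ) * y ^ 2) * (1 + o.eh : ℝ) * if a = 0 then o.hl y else 1
def hh (o : Mod) (y : ℂ) : ℂ := ∫ x, o.hB x * Complex.exp (Complex.I * x * y)
/-- weight of a form on the sites `S`, after the shift -/
def wc (o : Mod) (n : ℕ) (Θ : Fld) (ω : Om) (S : Finset P) (δ : Form o.R) : ℂ :=
  (∏ e ∈ he n S, ph o (δ e) (dg (Xi n Θ ω (o.rho n S δ ω)) e.1 e.2)) *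
    (∏ e ∈ (hes n).filter (fun e => e.1 ∈ S),
      ps o (ω (e.2.val, e.1)) (dg (Xi n Θ ω (o.rho n S δ ω)) e.1 e.2)) *
    Complex.exp (∑ p ∈ inn n, -(o.rho n S δ ω p ^ 2 / 32 : ℝ) +
      ∑ p ∈ sqr n, Complex.I * o.rho n S δ ω p * Θ p)
/-- the seam factor -/
def xf (o : Mod) (n L : ℕ) (Θ : Fld) (ω : Om) (S : Finset P) (σ : P → Option Lab)
    (δ : Form o.R) : ℂ :=
  ∏ e ∈ crs n S, Complex.exp ((exc L σ e * o.gam * o.η / 4 : ℝ) *
    dg (Xi n Θ ω (o.rho n S δ ω)) e.1 e.2 ^ 2)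
/-- weight of a form on the whole box, before the shift -/
def G0 (o : Mod) (n : ℕ) (Θ : Fld) (ω : Om) (δ : Form o.R) : ℂ :=
  (∏ e ∈ hes n, ph o (δ e) (dg (Θ + cf (zw n ω)) e.1 e.2) *
      ps o (ω (e.2.val, e.1)) (dg (Θ + cf (zw n ω)) e.1 e.2)) *
    Complex.exp (∑ p ∈ sqr n, Complex.I * o.rho n (box n) δ ω p * (Θ + cf (zw n ω)) p)
/-- noise of the half edges from `a`, white noise from `b` -/
def mrg (a b : Om) : Om := fun i => if i.1 < 4 then a i else b i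
/-- standing assumptions on the model -/
structure OK (o : Mod) : Prop where
  h : IsH o.h
  B : 0 < o.Bw
  η0 : 0 < o.η
  η1 : o.η ≤ 1 / 2
  τ : (o.a, o.x1) ∈ rect

def S_mrg : Prop := ∀ (ι : Type) (μ ν : ι → Measure ℝ) [∀ i, IsProbabilityMeasure (μ i)]
  [∀ i, IsProbabilityMeasure (ν i)] (S : Set ι),
  MeasurePreserving (fun (y : (ι → ℝ) × (ι → ℝ)) i => if i ∈ S then y.1 i else y.2 i)
    ((Measure.infinitePi μ).prod (Measure.infinitePi ν))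
    (Measure.infinitePi fun i => if i ∈ S then μ i else ν i)
def S_sh1 : Prop := ∀ (f : ℂ → ℂ) (k C : ℝ), Differentiable ℂ f →
  (∀ z : ℂ, |z.im| ≤ |k| → ‖f z‖ ≤ C) →
  ∫ x : ℝ, f x * Complex.exp (Complex.I * k * x) ∂gaussianReal 0 1 =
    Complex.exp (-(k ^ 2 / 2 : ℝ)) * ∫ x : ℝ, f (x + Complex.I * k) ∂gaussianReal 0 1
def S_sh : Prop := ∀ (F : Fld → ℂ) (J : Finset P) (k : P → ℝ), Measurable F →
  (∀ g p, Differentiable ℂ fun x => F (Function.update g p x)) →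
  (∀ r : ℝ, ∃ C : ℝ, ∀ g : Fld, (∀ p, |(g p).im| ≤ r) → ‖F g‖ ≤ C) →
  ∫ ω, F (fun p => ω (4, p)) * Complex.exp (∑ p ∈ J, Complex.I * k p * ω (4, p)) ∂PP =
    Complex.exp (∑ p ∈ J, -(k p ^ 2 / 2 : ℝ)) *
      ∫ ω, F (fun p => ω (4, p) + if p ∈ J then Complex.I * k p else 0) ∂PP
def S_hl : Prop := ∀ o : Mod, OK o → Differentiable ℂ o.hl ∧ 0 ≤ o.eh ∧
  ∀ y : ℂ, ‖o.hl y‖ ≤ Real.exp (o.sig0 * |y.im|)
def S_exp : Prop := ∀ (o : Mod) (n : ℕ) (Ξ : P → ℝ), OK o →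
  ∏ e ∈ eds n, nuh o.nu (dg (cf Ξ) e.1 e.2) = ∑ δ ∈ forms o.R n (box n),
    (∏ e ∈ hes n, ph o (δ e) (dg (cf Ξ) e.1 e.2) *
      Complex.exp (-(o.η / 4 : ℝ) * dg (cf Ξ) e.1 e.2 ^ 2) * hh o (dg (cf Ξ) e.1 e.2)) *
    Complex.exp (∑ p ∈ sqr n, Complex.I * o.H (curl δ p) * Ξ p)
def S_noi : Prop := ∀ (o : Mod) [IsProbabilityMeasure o.mh] (n : ℕ) (Ξ : P → ℝ), OK o →
  ∏ e ∈ hes n, hh o (dg (cf Ξ) e.1 e.2) = ∫ ω, (∏ e ∈ hes n, ((1 + o.eh : ℝ) : ℂ) *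
    if ω (e.2.val, e.1) = 0 then o.hl (dg (cf Ξ) e.1 e.2) else 1) *
    Complex.exp (∑ p ∈ sqr n, Complex.I * (curl (Mod.xi n (box n) ω) p : ℝ) * Ξ p) ∂mu0 o.mh
def S_gs : Prop := ∀ (o : Mod) (n : ℕ) (Θ : P → ℝ) (δ : Form o.R) (a : Om), OK o →
  ∫ b, G0 o n (cf Θ) (mrg a b) δ ∂PP = ∫ b, wc o n (cf Θ) (mrg a b) (box n) δ ∂PP
def S_bd : Prop := ∀ (o : Mod) (n : ℕ) (Θ : P → ℝ) (δ : Form o.R), OK o →
  (Measurable fun ω => G0 o n (cf Θ) ω δ) ∧ (Measurable fun ω => wc o n (cf Θ) ω (box n) δ) ∧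
  ∃ C : ℝ, ∀ ω, ‖G0 o n (cf Θ) ω δ‖ ≤ C ∧ ‖wc o n (cf Θ) ω (box n) δ‖ ≤ C
def S_ana : Prop := ∀ (o : Mod) [IsProbabilityMeasure o.mh] (n : ℕ) (Θ : P → ℝ), OK o →
  W0 o.nu n (cf Θ) = ∫ ω, ∑ δ ∈ forms o.R n (box n), wc o n (cf Θ) ω (box n) δ ∂mu0 o.mh
def S_wt : Prop := ∀ (o : Mod) (L m : ℕ) (t z : ℝ) (Θ : Fld) (ω : Om) (X : Finset P)
  (σ : P → Option Lab) (δ : Form o.R), 1 ≤ L → 2 ≤ m → t ≠ 0 → (z = t ∨ z = 0) → X ⊆ box m →
  (∀ p ∈ ring (L * m), Θ p = z * uB (L * m) p) → δ ∈ forms o.R (L * m) (under L X) →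
  o.wt (L * m) L m t z Θ ω X σ δ =
    wc o (L * m) Θ ω (under L X) δ * xf o (L * m) L Θ ω (under L X) σ δ

/-- colourings of the tiles: `none` is bad, neighbouring good tiles have the same phase -/
def cols (D : Finset P) : Finset (P → Option Lab) :=
  (cfgs univ none D).filter fun κ =>
    ∀ a ∈ D, ∀ b ∈ D, nr 1 a b → ∀ s t, κ a = some s → κ b = some t → s = t
def bads (D : Finset P) (κ : P → Option Lab) : Finset P := D.filter fun T => κ T = none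
def bsg (D : Finset P) (κ : P → Option Lab) (X : Finset P) : P → Option Lab :=
  fun b => if b ∈ bdry D X then κ b else none
def S_col : Prop := ∀ (D : Finset P) (I : Lab → P → ℂ) (k : Finset P → (P → Option Lab) → ℂ),
  Wsum D I (fun s X => if (bdry D X).Nonempty then k X (cst D X s) else 0)
      (fun X σ => if Nn D X σ ∧ Lc D X σ then k X σ else 0) =
    ∑ κ ∈ cols D, (∏ s, ∏ T ∈ D.filter (fun T => κ T = some s), I s T) *
      ∏ X ∈ comps (bads D κ), k X (bsg D κ X)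

variable {R : ℕ}
/-- the tile `T` is pure of phase `s` -/
def tp (n L : ℕ) (ω : Om) (δ : Form R) (s : Lab) (T : P) : Prop := ∃ a, pureOn n L s a ω δ {T}
/-- the label of a site of a pure tile -/
def lbl (n L : ℕ) (ω : Om) (δ : Form R) (x : P) : Gp R :=
  if h : ∃ s, tp n L ω δ s (par L x) then h.choose_spec.choose x else 0
/-- the part of a form that belongs to the sites `S` -/
def res (n L : ℕ) (ω : Om) (δ : Form R) (S : Finset P) : Form R := fun e =>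
  if e ∈ hes n then
    (if e.1 ∈ S then (if (rev e).1 ∈ S then δ e else -lbl n L ω δ e.1)
      else if (rev e).1 ∈ S then lbl n L ω δ (rev e).1 else 0)
  else 0
/-- the colouring of a form -/
def cls (L m : ℕ) (ω : Om) (δ : Form R) : P → Option Lab := fun T =>
  if h : T ∈ box m ∧ ∃ s a, pureOn (L * m) L s a ω δ (near 1 (box m) {T}) then some h.2.choose
  else none
def fib (R L m : ℕ) (ω : Om) (κ : P → Option Lab) : Finset (Form R) :=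
  (forms R (L * m) (box (L * m))).filter fun δ => cls L m ω δ = κ
/-- the pieces: good tiles and bad components -/
def pcs (D : Finset P) (κ : P → Option Lab) : Finset (Finset P) :=
  (D \ bads D κ).image singleton ∪ comps (bads D κ)
def sgm (D : Finset P) (κ : P → Option Lab) (X : Finset P) : P → Option Lab :=
  if X ⊆ bads D κ then bsg D κ X else fun _ => if h : X.Nonempty then κ h.choose else none
def cfg (R L m : ℕ) (ω : Om) (κ : P → Option Lab) (X : Finset P) : Finset (Form R) :=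
  if X ⊆ bads (box m) κ then adm R (L * m) L m ω X (bsg (box m) κ X)
  else X.biUnion fun T => univ.biUnion fun s => if κ T = some s then pur R (L * m) L ω s T else ∅

def S_fwd : Prop := ∀ (R L m : ℕ) (ω : Om) (κ : P → Option Lab), 20 ≤ L →
  ∀ δ ∈ fib R L m ω κ, ∀ X ∈ pcs (box m) κ, res (L * m) L ω δ (under L X) ∈ cfg R L m ω κ X
def S_sum : Prop := ∀ (R L m : ℕ) (ω : Om) (κ : P → Option Lab), 20 ≤ L →
  ∀ δ ∈ fib R L m ω κ, ∑ X ∈ pcs (box m) κ, res (L * m) L ω δ (under L X) = δ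
def S_bwd : Prop := ∀ (R L m : ℕ) (ω : Om), ∀ κ ∈ cols (box m), ∀ f : Finset P → Form R, 20 ≤ L →
  (∀ X ∈ pcs (box m) κ, f X ∈ cfg R L m ω κ X) →
  ∑ X ∈ pcs (box m) κ, f X ∈ fib R L m ω κ ∧
    ∀ X ∈ pcs (box m) κ, res (L * m) L ω (∑ Y ∈ pcs (box m) κ, f Y) (under L X) = f X
/-- charges of the pieces -/
def S_rho : Prop := ∀ (o : Mod) (L m : ℕ) (ω : Om) (κ : P → Option Lab), 20 ≤ L →
  ∀ δ ∈ fib o.R L m ω κ,
  (∀ p, o.rho (L * m) (box (L * m)) δ ω p = ∑ X ∈ pcs (box m) κ,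
    o.rho (L * m) (under L X) (res (L * m) L ω δ (under L X)) ω p) ∧
  ∀ p ∈ inn (L * m), ∀ X ∈ pcs (box m) κ,
    o.rho (L * m) (under L X) (res (L * m) L ω δ (under L X)) ω p =
      if ∃ d, p - crn d ∈ under L X then o.rho (L * m) (box (L * m)) δ ω p else 0
/-- the factors of the edges -/
def S_edg : Prop := ∀ (o : Mod) (L m : ℕ) (ω : Om) (κ : P → Option Lab) (y : P × Fin 4 → ℂ)
  (c : P × Fin 4 → ℂ), 20 ≤ L → (∀ e, c (rev e) = c e) → ∀ δ ∈ fib o.R L m ω κ,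
  ∏ e ∈ hes (L * m), ph o (δ e) (y e) = ∏ X ∈ pcs (box m) κ, ∏ e ∈ he (L * m) (under L X),
    ph o (res (L * m) L ω δ (under L X) e) (y e) ∧
  ∑ X ∈ pcs (box m) κ, ∑ e ∈ crs (L * m) (under L X), (exc L (sgm (box m) κ X) e : ℝ) * c e = 0
def S_mul : Prop := ∀ (o : Mod) (L m : ℕ) (Θ : Fld) (ω : Om) (κ : P → Option Lab), 20 ≤ L →
  1 ≤ o.R → ∀ δ ∈ fib o.R L m ω κ,
  wc o (L * m) Θ ω (box (L * m)) δ = (o.r ^ (L * m) ^ 2 : ℝ) * ∏ X ∈ pcs (box m) κ,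
    (o.r ^ (-nexp (L * m) L X (sgm (box m) κ X)) : ℝ) *
      (wc o (L * m) Θ ω (under L X) (res (L * m) L ω δ (under L X)) *
        xf o (L * m) L Θ ω (under L X) (sgm (box m) κ X) (res (L * m) L ω δ (under L X)))

end Pool.Agent.Lib.MP_9cc147_pr.Cx.Pi
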